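import Pool.Agent.Q120.FA.Stm3
import Pool.Agent.H295R2.T6b

set_option autoImplicit false

namespace Pool.Agent.Q96.FA

open MeasureTheory Filter Topology Set
open Pool.Agent.Q120.FA
open Pool.Agent.H295R2 (farey fareyNth disp totalSum localSum sum_farey_eq t1_sum_eq cnt_fareyNth
  interval_lower localSum_le_total)

lemma sum_FN (N : ℕ) (G : ℚ → ℝ) :
    ∑ q ∈ FN N, G ((q.1 : ℚ) / (q.2 : ℚ)) = ∑ x ∈ farey N, G x := by
  rw [sum_farey_eq, Finset.sum_sigma']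
  refine Finset.sum_nbij' (fun q => ⟨q.2, q.1⟩) (fun s => (s.2, s.1)) ?_ ?_ ?_ ?_ ?_
  · rintro ⟨a, n⟩ hq
    simp only [FN, Finset.mem_filter, Finset.mem_product, Finset.mem_Icc] at hq
    simp only [Finset.mem_sigma, Finset.mem_filter, Finset.mem_Icc]
    exact ⟨hq.1.2, ⟨hq.1.1.1, hq.2.1⟩, hq.2.2⟩
  · rintro ⟨n, a⟩ hq
    simp only [Finset.mem_sigma, Finset.mem_filter, Finset.mem_Icc] at hq
    simp only [FN, Finset.mem_filter, Finset.mem_product, Finset.mem_Icc]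
    exact ⟨⟨⟨hq.2.1.1, hq.2.1.2.trans hq.1.2⟩, hq.1⟩, hq.2.1.2, hq.2.2⟩
  · rintro ⟨a, n⟩ _
    rfl
  · rintro ⟨n, a⟩ _
    rfl
  · rintro ⟨a, n⟩ _
    rfl

lemma card_FN (N : ℕ) : (FN N).card = (farey N).card := by
  have h := sum_FN N (fun _ => 1)
  simp only [Finset.sum_const, nsmul_eq_mul, mul_one] at h
  exact_mod_cast h

lemma cnt_eq (N : ℕ) (t : ℝ) : (cnt N t : ℝ) = Pool.Agent.H295R2.cnt N t := by
  unfold Pool.Agent.H295R2.cnt
  rw [← sum_FN N (fun x : ℚ => if ((x : ℚ) : ℝ) ≤ t then (1 : ℝ) else 0)]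
  rw [← Finset.sum_filter, Finset.sum_const, nsmul_eq_mul, mul_one]
  congr 2
  unfold cnt FN
  rw [Finset.filter_filter]
  congr 1
  ext ⟨a, n⟩
  simp only [Finset.mem_filter, Rat.cast_div, Rat.cast_natCast, and_assoc]

lemma D_one (N : ℕ) : D 1 N = totalSum N := by
  unfold D totalSum
  have e1 : ∑ q ∈ FN N, |fp q - (cnt N (fp q) : ℝ) / ((FN N).card : ℝ)| ^ (1 : ℝ) =
      ∑ q ∈ FN N, (fun x : ℚ => |(x : ℝ) - Pool.Agent.H295R2.cnt N (x : ℝ) / ((farey N).card : ℝ)|)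
        ((q.1 : ℚ) / (q.2 : ℚ)) := by
    refine Finset.sum_congr rfl fun q _ => ?_
    have h : (((q.1 : ℚ) / (q.2 : ℚ) : ℚ) : ℝ) = fp q := by
      unfold fp
      push_cast
      rfl
    rw [Real.rpow_one, card_FN, cnt_eq]
    simp only [h]
  rw [e1, sum_FN N (fun x : ℚ => |(x : ℝ) - Pool.Agent.H295R2.cnt N (x : ℝ) / ((farey N).card : ℝ)|),
    t1_sum_eq]
  refine Finset.sum_congr rfl fun j _ => ?_
  have h := cnt_fareyNth j
  unfold disp
  unfold fareyNth at h ⊢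
  rw [h]

/-- the lower bound for Landau's sum, all large `N` -/
theorem t_SE : J_SE := by
  intro ε hε
  filter_upwards [interval_lower (α := 0) (β := 2) (by norm_num) (by norm_num) (by norm_num) hε] with N hN
  rw [D_one]
  exact hN.trans (localSum_le_total 0 2 N)

end Pool.Agent.Q96.FA
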